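import Pool.Agent.H161R4.RKRamsey

set_option autoImplicit false

namespace Pool.Agent.H161R4

open Finset SimpleGraph Filter

lemma clique_le_rank {n : ℕ} (H : SimpleGraph (Fin n)) [DecidableRel H.Adj] (S : Finset (Fin n))
    (hS : Cl H S) : S.card ≤ (H.adjMatrix ℝ).rank + 1 := by
  classical
  let e : S → Fin n := fun x => x.1
  have h1 := H927R3.Nu2.rank_sub' (H.adjMatrix ℝ) e
  have h2 : (1 : Matrix S S ℝ) = (Matrix.of (fun _ _ => (1 : ℝ)) : Matrix S S ℝ) +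
      (-((H.adjMatrix ℝ).submatrix e e)) := by
    ext x y
    by_cases hxy : x = y
    · subst hxy
      simp [e]
    · have hadj : H.Adj (e x) (e y) := hS _ x.2 _ y.2 (fun h => hxy (Subtype.ext h))
      simp [Matrix.one_apply, hxy, hadj]
  have h3 : (1 : Matrix S S ℝ).rank = S.card := by
    rw [Matrix.rank_one]
    simp
  have h4 := H927R3.Nu2.rank_add_le' (Matrix.of (fun _ _ => (1 : ℝ)) : Matrix S S ℝ)
    (-((H.adjMatrix ℝ).submatrix e e))
  rw [← h2, h3] at h4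
  have h5 := H927R3.Nu2.rank_one' (W := S)
  have h6 := H927R3.Nu2.rank_neg' ((H.adjMatrix ℝ).submatrix e e)
  omega

/-- `R(k,3)/k → ∞` -/
theorem ramsey_superlinear (M : ℕ) : ∃ K : ℕ, ∀ k : ℕ, K ≤ k → M * k < ramseyNum k 3 := by
  classical
  by_cases hM : M = 0
  · refine ⟨1, fun k hk => ?_⟩
    rw [hM, zero_mul]
    exact ramsey_pos hk (by norm_num)
  have hM1 : 1 ≤ M := Nat.one_le_iff_ne_zero.mpr hM
  obtain ⟨c, hc, C, hC, hmain⟩ := H927R3.Nu2.main
  have hlim : Tendsto (fun k : ℕ => (((M * k : ℕ) : ℝ)) ^ (-c)) atTop (nhds 0) := by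
    refine (tendsto_rpow_neg_atTop hc).comp ?_
    apply tendsto_natCast_atTop_atTop.comp
    exact tendsto_id.const_mul_atTop' (by omega)
  have hpos : (0 : ℝ) < 1 / (2 * (C * M)) := by positivity
  obtain ⟨K, hK⟩ := eventually_atTop.mp (hlim.eventually (gt_mem_nhds hpos))
  refine ⟨max K 4, fun k hk => ?_⟩
  have hk4 : 4 ≤ k := le_trans (le_max_right _ _) hk
  have hkK := hK k (le_trans (le_max_left _ _) hk)
  by_contra hcon
  push Not at hcon
  have hn1 : 1 ≤ M * k := Nat.mul_pos hM1 (by omega)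
  obtain ⟨G, hG, hr⟩ := hmain (M * k) hn1
  have hgood := good_mono (ramsey_good k 3) hcon
  rcases good_type hgood Gᶜ Finset.univ (by simp) with ⟨S, _, hS, hc2⟩ | ⟨S, _, hS, hc2⟩
  · have h1 := clique_le_rank Gᶜ S hS
    have h2 : ((Gᶜ.adjMatrix ℝ).rank : ℝ) ≤ C * ((M * k : ℕ) : ℝ) ^ (1 - c) := hr
    have hx : (0 : ℝ) < ((M * k : ℕ) : ℝ) := by exact_mod_cast hn1
    have h3 : ((M * k : ℕ) : ℝ) ^ (1 - c) = ((M * k : ℕ) : ℝ) * ((M * k : ℕ) : ℝ) ^ (-c) := by
      rw [sub_eq_add_neg, Real.rpow_add hx, Real.rpow_one]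
    have h4 : C * ((M * k : ℕ) : ℝ) ^ (1 - c) ≤ k / 2 := by
      rw [h3]
      have h5 : ((M * k : ℕ) : ℝ) ^ (-c) ≤ 1 / (2 * (C * M)) := hkK.le
      calc C * (((M * k : ℕ) : ℝ) * ((M * k : ℕ) : ℝ) ^ (-c))
          ≤ C * (((M * k : ℕ) : ℝ) * (1 / (2 * (C * M)))) := by gcongr
        _ = k / 2 := by
          push_cast
          have hM' : (M : ℝ) ≠ 0 := by exact_mod_cast hM
          field_simp
    have h6 : (S.card : ℝ) ≤ ((Gᶜ.adjMatrix ℝ).rank : ℝ) + 1 := by exact_mod_cast h1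
    rw [hc2] at h6
    have h7 : (4 : ℝ) ≤ k := by exact_mod_cast hk4
    have h8 : (k : ℝ) ≤ k / 2 + 1 := by linarith
    linarith
  · refine hG S ⟨fun u hu v hv huv => ?_, hc2⟩
    have := hS u hu v hv huv
    rw [compl_adj] at this
    by_contra hn
    exact this ⟨huv, hn⟩

/-- the lower bound for `f(k,k-2)` is asymptotic to `R(k,3)/k` -/
theorem asymptotic (ε : ℝ) (hε : 0 < ε) : ∃ K : ℕ, ∀ k : ℕ, K ≤ k →
    (1 - ε) * ((ramseyNum k 3 : ℝ) / k) ≤ (maxCopies k (k - 2) : ℝ) := by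
  obtain ⟨M, hM⟩ := exists_nat_gt (6 / ε)
  obtain ⟨K, hK⟩ := ramsey_superlinear (max M 3)
  refine ⟨max K 6, fun k hk => ?_⟩
  have hk6 : 6 ≤ k := le_trans (le_max_right _ _) hk
  have h1 := hK k (le_trans (le_max_left _ _) hk)
  have hMk : M * k ≤ (max M 3) * k := Nat.mul_le_mul_right k (le_max_left _ _)
  have h3k : 3 * k ≤ (max M 3) * k := Nat.mul_le_mul_right k (le_max_right _ _)
  set R := ramseyNum k 3 with hR
  have h2 := lower_bound_two k (by omega)
  rw [← hR] at h2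
  have h3 : R - 2 * k - 3 < ((R - 2 * k - 3) / (k - 2) + 1) * (k - 2) := by
    have := Nat.lt_div_mul_add (a := R - 2 * k - 3) (b := k - 2) (by omega)
    rw [add_mul, one_mul]
    exact this
  have h4 : R - 2 * k - 3 < (maxCopies k (k - 2) + 1) * k := by
    calc R - 2 * k - 3 < ((R - 2 * k - 3) / (k - 2) + 1) * (k - 2) := h3
      _ ≤ (maxCopies k (k - 2) + 1) * k := Nat.mul_le_mul (by omega) (by omega)
  have h5 : R < (maxCopies k (k - 2) + 1) * k + 2 * k + 3 := by omega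
  have h6 : (R : ℝ) < (maxCopies k (k - 2) + 1) * k + 2 * k + 3 := by exact_mod_cast h5
  have hkpos : (0 : ℝ) < k := by
    have : 0 < k := by omega
    exact_mod_cast this
  have h7 : (6 : ℝ) ≤ k := by exact_mod_cast hk6
  have h8 : (R : ℝ) / k ≤ maxCopies k (k - 2) + 4 := by
    rw [div_le_iff₀ hkpos]
    nlinarith
  have h9 : (M : ℝ) ≤ (R : ℝ) / k := by
    rw [le_div_iff₀ hkpos]
    have : M * k ≤ R := by omega
    exact_mod_cast this
  have h10 : 6 ≤ ε * ((R : ℝ) / k) := by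
    have : 6 / ε ≤ (R : ℝ) / k := by linarith
    rw [div_le_iff₀ hε] at this
    linarith
  nlinarith

end Pool.Agent.H161R4
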