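import Mathlib

set_option autoImplicit false

/-!
Ramsey equivalence of `K_k` and `K_k + f K_t`: definitions.
-/

namespace Pool.Agent.H161R4

/-- `K_k` together with `f` disjoint copies of `K_t` (all vertex-disjoint). -/
def cliquePlus (k f t : ℕ) : SimpleGraph (Fin k ⊕ (Fin f × Fin t)) where
  Adj x y := match x, y with
    | Sum.inl a, Sum.inl b => a ≠ b
    | Sum.inr p, Sum.inr q => p.1 = q.1 ∧ p.2 ≠ q.2
    | _, _ => False
  symm := ⟨by
    rintro (a | p) (b | q) h
    · exact Ne.symm h
    · exact h
    · exact h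
    · exact ⟨h.1.symm, Ne.symm h.2⟩⟩
  loopless := ⟨by
    rintro (a | p) h
    · exact h rfl
    · exact h.2 rfl⟩

/-- `G → H`: for every colouring of the edges of `G` with two colours (the red edges form the
subgraph `R` and the blue edges form `G \ R`) there is a monochromatic copy of `H`. -/
def Arrows {V W : Type} (G : SimpleGraph V) (H : SimpleGraph W) : Prop :=
  ∀ R : SimpleGraph V, R ≤ G → H.IsContained R ∨ H.IsContained (G \ R)

/-- `H₁` and `H₂` are Ramsey-equivalent: for every finite graph `G`, `G → H₁` iff `G → H₂`. -/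
def RamseyEquivalent {W₁ W₂ : Type} (H₁ : SimpleGraph W₁) (H₂ : SimpleGraph W₂) : Prop :=
  ∀ (V : Type) [Finite V] (G : SimpleGraph V), Arrows G H₁ ↔ Arrows G H₂

/-- `f(k,t)`: the largest `f ≥ 0` such that `K_k` and `K_k + f K_t` are Ramsey-equivalent. -/
noncomputable def maxCopies (k t : ℕ) : ℕ :=
  sSup {f : ℕ | RamseyEquivalent (⊤ : SimpleGraph (Fin k)) (cliquePlus k f t)}

/-- The classical two-colour Ramsey number `R(s,r)`: the least `n` such that every graph on `n`
vertices contains a clique of size `s` or an independent set of size `r`. -/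
noncomputable def ramseyNum (s r : ℕ) : ℕ :=
  sInf {n : ℕ | ∀ R : SimpleGraph (Fin n), ¬ R.CliqueFree s ∨ ¬ Rᶜ.CliqueFree r}

end Pool.Agent.H161R4
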