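import Pool.Agent.H161R4.RKDefs

set_option autoImplicit false

namespace Pool.Agent.H161R4

open Finset SimpleGraph

/-- pairwise adjacent -/
def Cl {V : Type} (R : SimpleGraph V) (S : Finset V) : Prop := ∀ u ∈ S, ∀ v ∈ S, u ≠ v → R.Adj u v

lemma Cl.mono {V : Type} {R : SimpleGraph V} {S T : Finset V} (h : Cl R T) (hST : S ⊆ T) : Cl R S :=
  fun u hu v hv huv => h u (hST hu) v (hST hv) huv

lemma top_contained_of_cl {V : Type} {R : SimpleGraph V} {k : ℕ} {S : Finset V} (h : Cl R S)
    (hk : k ≤ S.card) : (⊤ : SimpleGraph (Fin k)).IsContained R := by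
  classical
  obtain ⟨S', hS', hc⟩ := Finset.exists_subset_card_eq hk
  let e : Fin k ≃ S' := (Finset.equivFinOfCardEq hc).symm
  refine ⟨⟨⟨fun i => (e i : V), ?_⟩, ?_⟩⟩
  · intro a b hab
    apply h _ (hS' (e a).2) _ (hS' (e b).2)
    intro hh
    exact hab (e.injective (Subtype.ext hh))
  · intro a b hh
    exact e.injective (Subtype.ext hh)

lemma cl_of_top_contained {V : Type} {R : SimpleGraph V} {k : ℕ}
    (h : (⊤ : SimpleGraph (Fin k)).IsContained R) : ∃ S : Finset V, Cl R S ∧ S.card = k := by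
  classical
  obtain ⟨c⟩ := h
  refine ⟨Finset.univ.map ⟨fun i => c i, c.injective⟩, ?_, by simp⟩
  intro u hu v hv huv
  simp only [Finset.mem_map, Finset.mem_univ, true_and, Function.Embedding.coeFn_mk] at hu hv
  obtain ⟨a, rfl⟩ := hu
  obtain ⟨b, rfl⟩ := hv
  apply c.toHom.map_adj
  simp only [top_adj]
  intro hab
  exact huv (by rw [hab])

lemma top_contained_cliquePlus (k f t : ℕ) :
    (⊤ : SimpleGraph (Fin k)).IsContained (cliquePlus k f t) := by
  refine ⟨⟨⟨fun i => Sum.inl i, ?_⟩, ?_⟩⟩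
  · intro a b hab
    exact hab
  · intro a b hh
    exact Sum.inl.inj hh

/-- a family of `f` pairwise disjoint `t`-cliques outside of `Q` -/
def Fam {V : Type} (R : SimpleGraph V) (Q : Finset V) (t j : ℕ) : Prop :=
  ∃ T : Fin j → Finset V, (∀ i, Cl R (T i)) ∧ (∀ i, (T i).card = t) ∧ (∀ i, Disjoint (T i) Q) ∧
    ∀ i i', i ≠ i' → Disjoint (T i) (T i')

lemma contained_of_fam {V : Type} {R : SimpleGraph V} {Q : Finset V} {k f t : ℕ} (hQ : Cl R Q)
    (hQk : Q.card = k) (h : Fam R Q t f) : (cliquePlus k f t).IsContained R := by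
  classical
  obtain ⟨T, hT, hc, hd, hdd⟩ := h
  let e : Fin k ≃ Q := (Finset.equivFinOfCardEq hQk).symm
  let g : ∀ i : Fin f, Fin t ≃ T i := fun i => (Finset.equivFinOfCardEq (hc i)).symm
  refine ⟨⟨⟨fun x => match x with
    | Sum.inl a => (e a : V)
    | Sum.inr p => (g p.1 p.2 : V), ?_⟩, ?_⟩⟩
  · rintro (a | ⟨i, a⟩) (b | ⟨j, b⟩) hab
    · apply hQ _ (e a).2 _ (e b).2
      intro hh
      exact hab (e.injective (Subtype.ext hh))
    · exact hab.elim
    · exact hab.elim
    · obtain ⟨h1, h2⟩ := hab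
      simp only at h1 h2
      subst h1
      apply hT i _ (g i a).2 _ (g i b).2
      intro hh
      exact h2 ((g i).injective (Subtype.ext hh))
  · rintro (a | ⟨i, a⟩) (b | ⟨j, b⟩) hh
    · exact congrArg _ (e.injective (Subtype.ext hh))
    · exfalso
      have h1 : (e a : V) = (g j b : V) := hh
      exact Finset.disjoint_left.mp (hd j) (g j b).2 (h1 ▸ (e a).2)
    · exfalso
      have h1 : (g i a : V) = (e b : V) := hh
      exact Finset.disjoint_left.mp (hd i) (g i a).2 (h1 ▸ (e b).2)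
    · have h1 : (g i a : V) = (g j b : V) := hh
      by_cases hij : i = j
      · subst hij
        have := (g i).injective (Subtype.ext h1)
        rw [this]
      · exfalso
        exact Finset.disjoint_left.mp (hdd i j hij) (g i a).2 (h1 ▸ (g j b).2)

lemma fam_zero {V : Type} (R : SimpleGraph V) (Q : Finset V) (t : ℕ) : Fam R Q t 0 :=
  ⟨fun i => i.elim0, fun i => i.elim0, fun i => i.elim0, fun i => i.elim0, fun i => i.elim0⟩

/-- a maximal family -/
lemma exists_maximal {V : Type} [Fintype V] [DecidableEq V] (R : SimpleGraph V) (Q : Finset V)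
    (t f : ℕ) (h : ¬ Fam R Q t f) :
    ∃ X : Finset V, Disjoint X Q ∧ X.card ≤ (f - 1) * t ∧
      ∀ S : Finset V, Cl R S → Disjoint S (Q ∪ X) → S.card ≠ t := by
  classical
  have hex : ∃ j, ¬ Fam R Q t j := ⟨f, h⟩
  have hlt : Nat.find hex ≤ f := Nat.find_min' hex h
  have hpos : Nat.find hex ≠ 0 := by
    intro h0
    have := Nat.find_spec hex
    rw [h0] at this
    exact this (fam_zero R Q t)
  obtain ⟨j, hj⟩ := Nat.exists_eq_succ_of_ne_zero hpos
  have hjF : Fam R Q t j := by
    by_contra hcon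
    have := Nat.find_min' hex hcon
    omega
  have hj1 : ¬ Fam R Q t (j + 1) := by
    have := Nat.find_spec hex
    rwa [hj] at this
  obtain ⟨T, hT, hc, hd, hdd⟩ := hjF
  refine ⟨Finset.univ.biUnion T, ?_, ?_, ?_⟩
  · rw [Finset.disjoint_biUnion_left]
    intro i _
    exact hd i
  · calc (Finset.univ.biUnion T).card ≤ ∑ i : Fin j, (T i).card := Finset.card_biUnion_le
      _ = j * t := by simp [hc]
      _ ≤ (f - 1) * t := Nat.mul_le_mul_right t (by omega)
  · intro S hS hSd hSt
    apply hj1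
    rw [Finset.disjoint_union_right] at hSd
    have hSX : ∀ i, Disjoint S (T i) := by
      intro i
      exact Finset.disjoint_of_subset_right (Finset.subset_biUnion_of_mem T (Finset.mem_univ i)) hSd.2
    refine ⟨Fin.cons S T, ?_, ?_, ?_, ?_⟩
    · intro i
      refine Fin.cases ?_ ?_ i
      · exact hS
      · intro i; exact hT i
    · intro i
      refine Fin.cases ?_ ?_ i
      · exact hSt
      · intro i; exact hc i
    · intro i
      refine Fin.cases ?_ ?_ i
      · exact hSd.1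
      · intro i; exact hd i
    · intro i
      refine Fin.cases ?_ ?_ i
      · intro i'
        refine Fin.cases ?_ ?_ i'
        · intro h; exact absurd rfl h
        · intro i' _
          exact hSX i'
      · intro i i'
        refine Fin.cases ?_ ?_ i'
        · intro _
          exact (hSX i).symm
        · intro i' h
          exact hdd i i' (fun hh => h (by rw [hh]))

/-- a good colouring of a small set -/
lemma exists_colouring {V : Type} [Fintype V] [DecidableEq V] (s r : ℕ) (A : Finset V)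
    (h : A.card < ramseyNum s r) : ∃ P : SimpleGraph V,
      (∀ S ⊆ A, (∀ u ∈ S, ∀ v ∈ S, u ≠ v → P.Adj u v) → S.card < s) ∧
      (∀ S ⊆ A, (∀ u ∈ S, ∀ v ∈ S, u ≠ v → ¬ P.Adj u v) → S.card < r) := by
  classical
  have hn := Nat.notMem_of_lt_sInf h
  simp only [Set.mem_ofPred_eq, not_forall, not_or, not_not] at hn
  obtain ⟨P, hP1, hP2⟩ := hn
  let e : A ≃ Fin A.card := A.equivFin
  let PA : SimpleGraph V :=
    { Adj := fun u v => ∃ (hu : u ∈ A) (hv : v ∈ A), P.Adj (e ⟨u, hu⟩) (e ⟨v, hv⟩)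
      symm := ⟨by
        rintro u v ⟨hu, hv, huv⟩
        exact ⟨hv, hu, huv.symm⟩⟩
      loopless := ⟨by
        rintro u ⟨hu, hv, huv⟩
        exact P.loopless.irrefl _ huv⟩ }
  have key : ∀ S : Finset V, ∀ hS : S ⊆ A, ∃ S' : Finset (Fin A.card), S'.card = S.card ∧
      ∀ a ∈ S', ∃ u, ∃ hu : u ∈ S, e ⟨u, hS hu⟩ = a := by
    intro S hS
    refine ⟨S.attach.map ⟨fun u => e ⟨u.1, hS u.2⟩, ?_⟩, by simp, ?_⟩
    · intro u v huv
      have h1 := e.injective huv
      have h2 : (u : V) = (v : V) := by simpa using h1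
      exact Subtype.ext h2
    · intro a ha
      simp only [Finset.mem_map, Finset.mem_attach, true_and, Subtype.exists] at ha
      obtain ⟨u, hu, hua⟩ := ha
      exact ⟨u, hu, hua⟩
  refine ⟨PA, ?_, ?_⟩
  · intro S hS hcl
    by_contra hcon
    push Not at hcon
    obtain ⟨S', hS', hm⟩ := key S hS
    obtain ⟨S'', hsub, hcard⟩ := Finset.exists_subset_card_eq (hS'.symm ▸ hcon)
    apply hP1 S''
    refine ⟨?_, hcard⟩
    intro a ha b hb hab
    obtain ⟨u, hu, rfl⟩ := hm a (hsub ha)
    obtain ⟨v, hv, rfl⟩ := hm b (hsub hb)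
    have huv : u ≠ v := by
      rintro rfl
      exact hab rfl
    obtain ⟨_, _, h3⟩ := hcl u hu v hv huv
    exact h3
  · intro S hS hcl
    by_contra hcon
    push Not at hcon
    obtain ⟨S', hS', hm⟩ := key S hS
    obtain ⟨S'', hsub, hcard⟩ := Finset.exists_subset_card_eq (hS'.symm ▸ hcon)
    apply hP2 S''
    refine ⟨?_, hcard⟩
    intro a ha b hb hab
    obtain ⟨u, hu, rfl⟩ := hm a (hsub ha)
    obtain ⟨v, hv, rfl⟩ := hm b (hsub hb)
    have huv : u ≠ v := by
      rintro rfl
      exact hab rfl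
    rw [compl_adj]
    refine ⟨hab, fun h3 => ?_⟩
    exact hcl u hu v hv huv ⟨hS hu, hS hv, h3⟩

/-- The recoloured graph has no monochromatic `K_k`. -/
lemma recolour {V : Type} [Fintype V] [DecidableEq V] (G R : SimpleGraph V) (A B : Finset V)
    (hAB : Disjoint A B) (PA PB : SimpleGraph V) (k t : ℕ) (ht : 1 ≤ t) (htk : t < k)
    (hA1 : ∀ S ⊆ A, (∀ u ∈ S, ∀ v ∈ S, u ≠ v → PA.Adj u v) → S.card < t)
    (hA2 : ∀ S ⊆ A, (∀ u ∈ S, ∀ v ∈ S, u ≠ v → ¬ PA.Adj u v) → S.card < k - t + 1)
    (hB1 : ∀ S ⊆ B, (∀ u ∈ S, ∀ v ∈ S, u ≠ v → PB.Adj u v) → S.card < t)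
    (hred : ∀ S : Finset V, Cl R S → Disjoint S A → S.card < t)
    (hblue : ∀ SB ⊆ B, ∀ SW : Finset V, Disjoint SW (A ∪ B) →
      (∀ u ∈ SB, ∀ v ∈ SB, u ≠ v → ¬ PB.Adj u v) → Cl (G \ R) SW → SB.card + SW.card < k) :
    ¬ Arrows G (⊤ : SimpleGraph (Fin k)) := by
  classical
  intro hG
  let R' : SimpleGraph V :=
    { Adj := fun u v => G.Adj u v ∧ ((u ∈ A ∧ v ∈ A ∧ ¬ PA.Adj u v) ∨ (u ∈ A ∧ v ∉ A) ∨
        (u ∉ A ∧ v ∈ A) ∨ (u ∈ B ∧ v ∈ B ∧ PB.Adj u v) ∨ (u ∉ A ∪ B ∧ v ∉ A ∪ B ∧ R.Adj u v))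
      symm := ⟨by
        rintro u v ⟨h, h'⟩
        refine ⟨h.symm, ?_⟩
        rcases h' with ⟨a, b, c⟩ | ⟨a, b⟩ | ⟨a, b⟩ | ⟨a, b, c⟩ | ⟨a, b, c⟩
        · exact Or.inl ⟨b, a, fun hh => c hh.symm⟩
        · exact Or.inr (Or.inr (Or.inl ⟨b, a⟩))
        · exact Or.inr (Or.inl ⟨b, a⟩)
        · exact Or.inr (Or.inr (Or.inr (Or.inl ⟨b, a, c.symm⟩)))
        · exact Or.inr (Or.inr (Or.inr (Or.inr ⟨b, a, c.symm⟩)))⟩
      loopless := ⟨fun u h => G.loopless.irrefl _ h.1⟩ }
  have hle : R' ≤ G := fun u v h => h.1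
  have hsplit : ∀ S : Finset V, S.card = (S ∩ A).card + ((S ∩ B).card + (S \ (A ∪ B)).card) := by
    intro S
    have h1 : (S ∩ A).card + (S ∩ B).card = (S ∩ (A ∪ B)).card := by
      rw [Finset.inter_union_distrib_left, Finset.card_union_of_disjoint]
      exact Finset.disjoint_of_subset_left Finset.inter_subset_right
        (Finset.disjoint_of_subset_right Finset.inter_subset_right hAB)
    have h2 := Finset.card_inter_add_card_sdiff S (A ∪ B)
    omega
  rcases hG R' hle with hc | hc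
  · obtain ⟨S, hS, hSk⟩ := cl_of_top_contained hc
    have hSA : (S ∩ A).card < k - t + 1 := by
      apply hA2 _ Finset.inter_subset_right
      intro u hu v hv huv
      rw [Finset.mem_inter] at hu hv
      rcases (hS u hu.1 v hv.1 huv).2 with ⟨a, b, c⟩ | ⟨a, b⟩ | ⟨a, b⟩ | ⟨a, b, c⟩ | ⟨a, b, c⟩
      · exact c
      · exact absurd hv.2 b
      · exact absurd hu.2 a
      · exact absurd a (Finset.disjoint_left.mp hAB hu.2)
      · exact absurd (Finset.mem_union_left _ hu.2) a
    have hSB : (S ∩ B).card < t := by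
      apply hB1 _ Finset.inter_subset_right
      intro u hu v hv huv
      rw [Finset.mem_inter] at hu hv
      rcases (hS u hu.1 v hv.1 huv).2 with ⟨a, b, c⟩ | ⟨a, b⟩ | ⟨a, b⟩ | ⟨a, b, c⟩ | ⟨a, b, c⟩
      · exact absurd hu.2 (Finset.disjoint_left.mp hAB a)
      · exact absurd hu.2 (Finset.disjoint_left.mp hAB a)
      · exact absurd hv.2 (Finset.disjoint_left.mp hAB b)
      · exact c
      · exact absurd (Finset.mem_union_right _ hu.2) a
    have hSW : (S \ (A ∪ B)).card < t := by
      apply hred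
      · intro u hu v hv huv
        rw [Finset.mem_sdiff] at hu hv
        rcases (hS u hu.1 v hv.1 huv).2 with ⟨a, b, c⟩ | ⟨a, b⟩ | ⟨a, b⟩ | ⟨a, b, c⟩ | ⟨a, b, c⟩
        · exact absurd (Finset.mem_union_left _ a) hu.2
        · exact absurd (Finset.mem_union_left _ a) hu.2
        · exact absurd (Finset.mem_union_left _ b) hv.2
        · exact absurd (Finset.mem_union_right _ a) hu.2
        · exact c
      · rw [Finset.disjoint_left]
        intro x hx hxA
        rw [Finset.mem_sdiff] at hx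
        exact hx.2 (Finset.mem_union_left _ hxA)
    have hor : (S ∩ B).card = 0 ∨ (S \ (A ∪ B)).card = 0 := by
      by_contra hcon
      push Not at hcon
      obtain ⟨h1, h2⟩ := hcon
      obtain ⟨u, hu⟩ := Finset.card_pos.mp (Nat.pos_of_ne_zero h1)
      obtain ⟨v, hv⟩ := Finset.card_pos.mp (Nat.pos_of_ne_zero h2)
      rw [Finset.mem_inter] at hu
      rw [Finset.mem_sdiff] at hv
      have huA : u ∉ A := fun h => Finset.disjoint_left.mp hAB h hu.2
      have huv : u ≠ v := by
        rintro rfl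
        exact hv.2 (Finset.mem_union_right _ hu.2)
      rcases (hS u hu.1 v hv.1 huv).2 with ⟨a, b, c⟩ | ⟨a, b⟩ | ⟨a, b⟩ | ⟨a, b, c⟩ | ⟨a, b, c⟩
      · exact huA a
      · exact huA a
      · exact hv.2 (Finset.mem_union_left _ b)
      · exact hv.2 (Finset.mem_union_right _ b)
      · exact a (Finset.mem_union_right _ hu.2)
    have := hsplit S
    omega
  · obtain ⟨S, hS, hSk⟩ := cl_of_top_contained hc
    have hnotred : ∀ u ∈ S, ∀ v ∈ S, u ≠ v → G.Adj u v ∧ ¬ R'.Adj u v := by
      intro u hu v hv huv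
      have := hS u hu v hv huv
      rw [sdiff_adj] at this
      exact this
    by_cases hne : (S ∩ A).card = 0
    · have h1 : (S ∩ B).card + (S \ (A ∪ B)).card < k := by
        apply hblue _ Finset.inter_subset_right _
        · exact Finset.sdiff_disjoint
        · intro u hu v hv huv hPB
          rw [Finset.mem_inter] at hu hv
          exact (hnotred u hu.1 v hv.1 huv).2 ⟨(hnotred u hu.1 v hv.1 huv).1,
            Or.inr (Or.inr (Or.inr (Or.inl ⟨hu.2, hv.2, hPB⟩)))⟩
        · intro u hu v hv huv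
          rw [Finset.mem_sdiff] at hu hv
          rw [sdiff_adj]
          refine ⟨(hnotred u hu.1 v hv.1 huv).1, fun hR => ?_⟩
          exact (hnotred u hu.1 v hv.1 huv).2 ⟨(hnotred u hu.1 v hv.1 huv).1,
            Or.inr (Or.inr (Or.inr (Or.inr ⟨hu.2, hv.2, hR⟩)))⟩
      have := hsplit S
      omega
    · obtain ⟨u, hu⟩ := Finset.card_pos.mp (Nat.pos_of_ne_zero hne)
      rw [Finset.mem_inter] at hu
      have hsub : S ⊆ A := by
        intro v hv
        by_contra hvA
        have huv : u ≠ v := by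
          rintro rfl
          exact hvA hu.2
        exact (hnotred u hu.1 v hv huv).2 ⟨(hnotred u hu.1 v hv huv).1,
          Or.inr (Or.inl ⟨hu.2, hvA⟩)⟩
      have h1 : S.card < t := by
        apply hA1 S hsub
        intro a ha b hb hab
        by_contra hP
        exact (hnotred a ha b hb hab).2 ⟨(hnotred a ha b hb hab).1,
          Or.inl ⟨hsub ha, hsub hb, hP⟩⟩
      omega

/-- core: no monochromatic `K_k + f K_t`, but a red `K_k`. -/
lemma core {V : Type} [Fintype V] [DecidableEq V] (G R : SimpleGraph V) (hR : R ≤ G)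
    (k f t : ℕ) (ht : 1 ≤ t) (htk : t < k) (hf : k + (f - 1) * t < ramseyNum t (k - t + 1))
    (h1 : ¬ (cliquePlus k f t).IsContained R) (h2 : ¬ (cliquePlus k f t).IsContained (G \ R))
    (Q : Finset V) (hQ : Cl R Q) (hQk : Q.card = k) : ¬ Arrows G (⊤ : SimpleGraph (Fin k)) := by
  classical
  have hfam : ¬ Fam R Q t f := fun hF => h1 (contained_of_fam hQ hQk hF)
  obtain ⟨X, hXQ, hXc, hXm⟩ := exists_maximal R Q t f hfam
  have hAcard : (Q ∪ X).card < ramseyNum t (k - t + 1) := by
    have := Finset.card_union_le Q X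
    omega
  obtain ⟨PA, hA1, hA2⟩ := exists_colouring t (k - t + 1) (Q ∪ X) hAcard
  have hred : ∀ S : Finset V, Cl R S → Disjoint S (Q ∪ X) → S.card < t := by
    intro S hS hd
    by_contra hcon
    push Not at hcon
    obtain ⟨S', hS', hc⟩ := Finset.exists_subset_card_eq hcon
    exact hXm S' (hS.mono hS') (Finset.disjoint_of_subset_left hS' hd) hc
  by_cases hb : ∃ Q' : Finset V, Cl (G \ R) Q' ∧ Disjoint Q' (Q ∪ X) ∧ Q'.card = k
  · obtain ⟨Q', hQ', hQ'd, hQ'k⟩ := hb
    have hfam' : ¬ Fam (G \ R) ((Q ∪ X) ∪ Q') t f := by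
      rintro ⟨T, hT, hc, hd, hdd⟩
      apply h2
      apply contained_of_fam hQ' hQ'k
      refine ⟨T, hT, hc, fun i => ?_, hdd⟩
      exact Finset.disjoint_of_subset_right Finset.subset_union_right (hd i)
    obtain ⟨Y, hYd, hYc, hYm⟩ := exists_maximal (G \ R) ((Q ∪ X) ∪ Q') t f hfam'
    have hBcard : (Q' ∪ Y).card < ramseyNum t (k - t + 1) := by
      have := Finset.card_union_le Q' Y
      omega
    obtain ⟨PB, hB1, hB2⟩ := exists_colouring t (k - t + 1) (Q' ∪ Y) hBcard
    have hAB : Disjoint (Q ∪ X) (Q' ∪ Y) := by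
      rw [Finset.disjoint_union_right]
      refine ⟨hQ'd.symm, ?_⟩
      exact (Finset.disjoint_of_subset_right Finset.subset_union_left hYd).symm
    refine recolour G R (Q ∪ X) (Q' ∪ Y) hAB PA PB k t ht htk hA1 hA2 hB1 hred ?_
    intro SB hSB SW hSW hind hcl
    have h3 := hB2 SB hSB hind
    have h4 : SW.card < t := by
      by_contra hcon
      push Not at hcon
      obtain ⟨S', hS', hc⟩ := Finset.exists_subset_card_eq hcon
      refine hYm S' (hcl.mono hS') ?_ hc
      rw [Finset.union_assoc]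
      exact Finset.disjoint_of_subset_left hS' hSW
    omega
  · push Not at hb
    refine recolour G R (Q ∪ X) ∅ (Finset.disjoint_empty_right _) PA ⊥ k t ht htk hA1 hA2 ?_ hred ?_
    · intro S hS _
      rw [Finset.subset_empty.mp hS, Finset.card_empty]
      exact ht
    · intro SB hSB SW hSW _ hcl
      rw [Finset.subset_empty.mp hSB, Finset.card_empty, zero_add]
      by_contra hcon
      push Not at hcon
      obtain ⟨S', hS', hc⟩ := Finset.exists_subset_card_eq hcon
      refine hb S' (hcl.mono hS') ?_ hc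
      rw [Finset.union_empty] at hSW
      exact Finset.disjoint_of_subset_left hS' hSW

/-- **Main theorem.** -/
theorem equivalent_of_lt (k f t : ℕ) (ht : 1 ≤ t) (htk : t < k)
    (hf : k + (f - 1) * t < ramseyNum t (k - t + 1)) :
    RamseyEquivalent (⊤ : SimpleGraph (Fin k)) (cliquePlus k f t) := by
  classical
  intro V _ G
  have : Fintype V := Fintype.ofFinite V
  constructor
  · intro hG
    by_contra hcon
    unfold Arrows at hcon
    obtain ⟨R, hcon⟩ := not_forall.mp hcon
    obtain ⟨hR, hcon⟩ := Classical.not_imp.mp hcon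
    obtain ⟨h1, h2⟩ := not_or.mp hcon
    rcases hG R hR with h | h
    · obtain ⟨Q, hQ, hQk⟩ := cl_of_top_contained h
      exact core G R hR k f t ht htk hf h1 h2 Q hQ hQk hG
    · obtain ⟨Q, hQ, hQk⟩ := cl_of_top_contained h
      have hRR : G \ (G \ R) = R := by
        rw [sdiff_sdiff_right_self]
        exact inf_eq_right.mpr hR
      exact core G (G \ R) sdiff_le k f t ht htk hf h2 (by rw [hRR]; exact h1) Q hQ hQk hG
  · intro hG R hR
    rcases hG R hR with h | h
    · exact Or.inl ((top_contained_cliquePlus k f t).trans h)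
    · exact Or.inr ((top_contained_cliquePlus k f t).trans h)

end Pool.Agent.H161R4
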