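import Pool.Agent.H161R4.RKMain
import Pool.Agent.H927R3.Nu2Final

set_option autoImplicit false

namespace Pool.Agent.H161R4

open Finset SimpleGraph

/-- no two vertices adjacent -/
def Ind {V : Type} (R : SimpleGraph V) (S : Finset V) : Prop :=
  ∀ u ∈ S, ∀ v ∈ S, u ≠ v → ¬ R.Adj u v

def Good (n s r : ℕ) : Prop :=
  ∀ R : SimpleGraph (Fin n), ¬ R.CliqueFree s ∨ ¬ Rᶜ.CliqueFree r

lemma good_type {n s r : ℕ} (h : Good n s r) {V : Type} (R : SimpleGraph V) (U : Finset V)
    (hU : n ≤ U.card) :
    (∃ S ⊆ U, Cl R S ∧ S.card = s) ∨ (∃ S ⊆ U, Ind R S ∧ S.card = r) := by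
  classical
  obtain ⟨U', hU', hc⟩ := Finset.exists_subset_card_eq hU
  let e : Fin n ≃ U' := (Finset.equivFinOfCardEq hc).symm
  have hinj : Function.Injective (fun i => (e i : V)) := by
    intro a b hab
    exact e.injective (Subtype.ext hab)
  have hmem : ∀ S : Finset (Fin n), S.map ⟨_, hinj⟩ ⊆ U := by
    intro S x hx
    simp only [Finset.mem_map, Function.Embedding.coeFn_mk] at hx
    obtain ⟨a, _, rfl⟩ := hx
    exact hU' (e a).2
  rcases h (R.comap (fun i => (e i : V))) with h | h
  · left
    unfold CliqueFree at h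
    push Not at h
    obtain ⟨S, hS⟩ := h
    refine ⟨S.map ⟨_, hinj⟩, hmem S, ?_, by rw [Finset.card_map]; exact hS.2⟩
    intro u hu v hv huv
    simp only [Finset.mem_map, Function.Embedding.coeFn_mk] at hu hv
    obtain ⟨a, ha, rfl⟩ := hu
    obtain ⟨b, hb, rfl⟩ := hv
    have hab : a ≠ b := by
      rintro rfl
      exact huv rfl
    have := hS.1 ha hb hab
    simpa using this
  · right
    unfold CliqueFree at h
    push Not at h
    obtain ⟨S, hS⟩ := h
    refine ⟨S.map ⟨_, hinj⟩, hmem S, ?_, by rw [Finset.card_map]; exact hS.2⟩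
    intro u hu v hv huv
    simp only [Finset.mem_map, Function.Embedding.coeFn_mk] at hu hv
    obtain ⟨a, ha, rfl⟩ := hu
    obtain ⟨b, hb, rfl⟩ := hv
    have hab : a ≠ b := by
      rintro rfl
      exact huv rfl
    have := hS.1 ha hb hab
    rw [compl_adj] at this
    simpa using this.2

lemma good_of {n s r : ℕ} (h : ∀ R : SimpleGraph (Fin n),
    (∃ S, Cl R S ∧ S.card = s) ∨ (∃ S, Ind R S ∧ S.card = r)) : Good n s r := by
  classical
  intro R
  rcases h R with ⟨S, hS, hc⟩ | ⟨S, hS, hc⟩
  · left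
    intro hcf
    exact hcf S ⟨fun u hu v hv huv => hS u hu v hv huv, hc⟩
  · right
    intro hcf
    refine hcf S ⟨fun u hu v hv huv => ?_, hc⟩
    rw [compl_adj]
    exact ⟨huv, hS u hu v hv huv⟩

lemma Cl.exists_sub {V : Type} {R : SimpleGraph V} {S : Finset V} (h : Cl R S) {s : ℕ}
    (hs : s ≤ S.card) : ∃ S' ⊆ S, Cl R S' ∧ S'.card = s := by
  obtain ⟨S', h1, h2⟩ := Finset.exists_subset_card_eq hs
  exact ⟨S', h1, h.mono h1, h2⟩

lemma good_mono {n m s r : ℕ} (h : Good n s r) (hnm : n ≤ m) : Good m s r := by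
  classical
  apply good_of
  intro R
  rcases good_type h R Finset.univ (by simpa using hnm) with ⟨S, _, h1⟩ | ⟨S, _, h1⟩
  · exact Or.inl ⟨S, h1⟩
  · exact Or.inr ⟨S, h1⟩

lemma good_mono_s {n s s' r : ℕ} (h : Good n s' r) (hss : s ≤ s') : Good n s r := by
  classical
  apply good_of
  intro R
  rcases good_type h R Finset.univ (by simp) with ⟨S, _, h1, h2⟩ | ⟨S, _, h1⟩
  · obtain ⟨S', _, h3, h4⟩ := h1.exists_sub (s := s) (by omega)
    exact Or.inl ⟨S', h3, h4⟩
  · exact Or.inr ⟨S, h1⟩

lemma good_zero_false {s r : ℕ} (hs : 1 ≤ s) (hr : 1 ≤ r) : ¬ Good 0 s r := by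
  intro h
  rcases good_type h (⊥ : SimpleGraph (Fin 0)) Finset.univ (by simp) with
    ⟨S, _, _, h2⟩ | ⟨S, _, _, h2⟩
  · have : S.card ≤ 0 := by simpa using Finset.card_le_univ S
    omega
  · have : S.card ≤ 0 := by simpa using Finset.card_le_univ S
    omega

lemma good_rec {a b s r : ℕ} (ha : Good a s (r + 1)) (hb : Good b (s + 1) r) (hab : 1 ≤ a + b) :
    Good (a + b) (s + 1) (r + 1) := by
  classical
  apply good_of
  intro R
  let v : Fin (a + b) := ⟨0, by omega⟩
  let N := Finset.univ.filter (fun u => R.Adj v u)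
  let N' := Finset.univ.filter (fun u => u ≠ v ∧ ¬ R.Adj v u)
  have hcard : N.card + N'.card + 1 = a + b := by
    have h1 : (Finset.univ : Finset (Fin (a + b))) = insert v (N ∪ N') := by
      ext u
      simp only [Finset.mem_univ, Finset.mem_insert, Finset.mem_union, true_iff, N, N',
        Finset.mem_filter, true_and]
      by_cases hu : u = v
      · exact Or.inl hu
      · by_cases hadj : R.Adj v u
        · exact Or.inr (Or.inl hadj)
        · exact Or.inr (Or.inr ⟨hu, hadj⟩)
    have h2 : v ∉ N ∪ N' := by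
      simp [N, N']
    have h3 : Disjoint N N' := by
      rw [Finset.disjoint_left]
      intro u hu hu'
      simp only [N, N', Finset.mem_filter, Finset.mem_univ, true_and] at hu hu'
      exact hu'.2 hu
    have h4 := congrArg Finset.card h1
    rw [Finset.card_insert_of_notMem h2, Finset.card_union_of_disjoint h3, Finset.card_univ,
      Fintype.card_fin] at h4
    omega
  by_cases hN : a ≤ N.card
  · rcases good_type ha R N hN with ⟨S, hS, h1, h2⟩ | ⟨S, hS, h1, h2⟩
    · left
      refine ⟨insert v S, ?_, ?_⟩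
      · intro x hx y hy hxy
        rw [Finset.mem_insert] at hx hy
        rcases hx with rfl | hx <;> rcases hy with rfl | hy
        · exact absurd rfl hxy
        · have := hS hy
          simp only [N, Finset.mem_filter, Finset.mem_univ, true_and] at this
          exact this
        · have := hS hx
          simp only [N, Finset.mem_filter, Finset.mem_univ, true_and] at this
          exact this.symm
        · exact h1 x hx y hy hxy
      · rw [Finset.card_insert_of_notMem, h2]
        intro hv
        have := hS hv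
        simp [N] at this
    · right
      exact ⟨S, h1, h2⟩
  · have hN' : b ≤ N'.card := by omega
    rcases good_type hb R N' hN' with ⟨S, hS, h1, h2⟩ | ⟨S, hS, h1, h2⟩
    · left
      exact ⟨S, h1, h2⟩
    · right
      refine ⟨insert v S, ?_, ?_⟩
      · intro x hx y hy hxy
        rw [Finset.mem_insert] at hx hy
        rcases hx with rfl | hx <;> rcases hy with rfl | hy
        · exact absurd rfl hxy
        · have := hS hy
          simp only [N', Finset.mem_filter, Finset.mem_univ, true_and] at this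
          exact this.2
        · have := hS hx
          simp only [N', Finset.mem_filter, Finset.mem_univ, true_and] at this
          exact fun h => this.2 h.symm
        · exact h1 x hx y hy hxy
      · rw [Finset.card_insert_of_notMem, h2]
        intro hv
        have := hS hv
        simp [N'] at this

lemma exists_good (s r : ℕ) : ∃ n, Good n s r := by
  induction s generalizing r with
  | zero =>
    refine ⟨0, good_of fun R => Or.inl ⟨∅, ?_, rfl⟩⟩
    intro u hu
    simp at hu
  | succ s ihs =>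
    induction r with
    | zero =>
      refine ⟨0, good_of fun R => Or.inr ⟨∅, ?_, rfl⟩⟩
      intro u hu
      simp at hu
    | succ r ihr =>
      obtain ⟨a, ha⟩ := ihs (r + 1)
      obtain ⟨b, hb⟩ := ihr
      exact ⟨(a + 1) + b, good_rec (good_mono ha (by omega)) hb (by omega)⟩

lemma ramsey_good (s r : ℕ) : Good (ramseyNum s r) s r := by
  have : (ramseyNum s r) ∈ {n : ℕ | ∀ R : SimpleGraph (Fin n), ¬ R.CliqueFree s ∨ ¬ Rᶜ.CliqueFree r} :=
    Nat.sInf_mem (exists_good s r)
  exact this

lemma ramsey_le {n s r : ℕ} (h : Good n s r) : ramseyNum s r ≤ n := Nat.sInf_le h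

lemma ramsey_pos {s r : ℕ} (hs : 1 ≤ s) (hr : 1 ≤ r) : 1 ≤ ramseyNum s r := by
  by_contra hcon
  have h0 : ramseyNum s r = 0 := by omega
  have := ramsey_good s r
  rw [h0] at this
  exact good_zero_false hs hr this

lemma ramsey_rec {s r : ℕ} (hr : 1 ≤ r) :
    ramseyNum (s + 1) (r + 1) ≤ ramseyNum s (r + 1) + ramseyNum (s + 1) r :=
  ramsey_le (good_rec (ramsey_good _ _) (ramsey_good _ _)
    (by have := ramsey_pos (s := s + 1) (r := r) (by omega) hr; omega))

lemma ramsey_mono_s {s s' r : ℕ} (h : s ≤ s') : ramseyNum s r ≤ ramseyNum s' r :=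
  ramsey_le (good_mono_s (ramsey_good _ _) h)

lemma ramsey_down (k j : ℕ) (hj : 1 ≤ j) (i : ℕ) (hi : i ≤ k) :
    ramseyNum k (j + 1) ≤ ramseyNum (k - i) (j + 1) + i * ramseyNum k j := by
  induction i with
  | zero => simp
  | succ i ih =>
    have h1 := ih (by omega)
    obtain ⟨s, hs⟩ : ∃ s, k - i = s + 1 := ⟨k - i - 1, by omega⟩
    have h2 := ramsey_rec (s := s) (r := j) hj
    have h3 : ramseyNum (s + 1) j ≤ ramseyNum k j := ramsey_mono_s (by omega)
    have h4 : k - (i + 1) = s := by omega
    rw [hs] at h1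
    rw [h4, add_mul, one_mul]
    omega

lemma ramsey_two (k : ℕ) : ramseyNum k 2 ≤ k := by
  classical
  apply ramsey_le
  apply good_of
  intro R
  by_cases h : Cl R (Finset.univ : Finset (Fin k))
  · exact Or.inl ⟨_, h, by simp⟩
  · right
    unfold Cl at h
    push Not at h
    obtain ⟨u, _, v, _, huv, hn⟩ := h
    refine ⟨{u, v}, ?_, Finset.card_pair huv⟩
    intro x hx y hy hxy
    simp only [Finset.mem_insert, Finset.mem_singleton] at hx hy
    rcases hx with rfl | rfl <;> rcases hy with rfl | rfl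
    · exact absurd rfl hxy
    · exact hn
    · exact fun h => hn h.symm
    · exact absurd rfl hxy

lemma bddAbove_copies (k t : ℕ) (ht : 1 ≤ t) :
    BddAbove {f : ℕ | RamseyEquivalent (⊤ : SimpleGraph (Fin k)) (cliquePlus k f t)} := by
  classical
  refine ⟨ramseyNum k k, ?_⟩
  rintro f hf
  have hf' : RamseyEquivalent (⊤ : SimpleGraph (Fin k)) (cliquePlus k f t) := hf
  have h1 : Arrows (⊤ : SimpleGraph (Fin (ramseyNum k k))) (⊤ : SimpleGraph (Fin k)) := by
    intro R _
    rcases good_type (ramsey_good k k) R Finset.univ (by simp) with ⟨S, _, hS, hc⟩ | ⟨S, _, hS, hc⟩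
    · exact Or.inl (top_contained_of_cl hS hc.ge)
    · refine Or.inr (top_contained_of_cl (S := S) ?_ hc.ge)
      intro u hu v hv huv
      rw [sdiff_adj]
      exact ⟨huv, hS u hu v hv huv⟩
  have h2 := (hf' _ _).mp h1 ⊥ bot_le
  have h3 : k + f * t ≤ ramseyNum k k := by
    rcases h2 with ⟨⟨c⟩⟩ | ⟨⟨c⟩⟩
    · have := Fintype.card_le_of_injective _ c.injective
      simpa using this
    · have := Fintype.card_le_of_injective _ c.injective
      simpa using this
  have h4 : f * 1 ≤ f * t := Nat.mul_le_mul_left f ht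
  omega

theorem lower_bound (k t : ℕ) (ht : 1 ≤ t) (htk : t < k) :
    (ramseyNum t (k - t + 1) - 1 - (k - t)) / t ≤ maxCopies k t := by
  set f := (ramseyNum t (k - t + 1) - 1 - (k - t)) / t with hf
  by_cases hf0 : f = 0
  · rw [hf0]; exact Nat.zero_le _
  · apply le_csSup (bddAbove_copies k t ht)
    apply equivalent_of_lt k f t ht htk
    have h1 : f * t ≤ ramseyNum t (k - t + 1) - 1 - (k - t) := Nat.div_mul_le_self _ _
    have h2 : 1 * t ≤ f * t := Nat.mul_le_mul_right t (Nat.one_le_iff_ne_zero.mpr hf0)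
    have h3 : (f - 1) * t = f * t - 1 * t := Nat.sub_mul f 1 t
    omega

theorem lower_bound' (k t : ℕ) (ht : 1 ≤ t) (htk : t < k) :
    (ramseyNum k (k - t + 1) - (k - t) * ramseyNum k (k - t) - 1 - (k - t)) / t ≤ maxCopies k t := by
  refine le_trans ?_ (lower_bound k t ht htk)
  apply Nat.div_le_div_right
  have h := ramsey_down k (k - t) (by omega) (k - t) (by omega)
  rw [show k - (k - t) = t by omega] at h
  omega

theorem lower_bound_two (k : ℕ) (hk : 3 ≤ k) :
    (ramseyNum k 3 - 2 * k - 3) / (k - 2) ≤ maxCopies k (k - 2) := by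
  refine le_trans ?_ (lower_bound' k (k - 2) (by omega) (by omega))
  rw [show k - (k - 2) = 2 by omega]
  apply Nat.div_le_div_right
  have := ramsey_two k
  show ramseyNum k 3 - 2 * k - 3 ≤ ramseyNum k 3 - 2 * ramseyNum k 2 - 1 - 2
  omega

end Pool.Agent.H161R4
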